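import Pool.Agent.N757.SG.Gen
import Pool.Agent.W223.AC.Split
import Pool.Agent.W976.AC.EX
import Pool.Agent.W460.AC.NORM
import Pool.Agent.W597.AC.LOC
import Pool.Agent.W193.AC.FINQ
import Pool.Agent.W398.AC.DIM
import Pool.Agent.W131.AC.GROW
import Pool.Agent.W989.AC.MULT
import Pool.Agent.W410.AC.HTG
import Pool.Agent.W756.AC.LOCP
import Pool.Agent.W223.AC.SUMP

/-!
# Stacky curves of any genus: consequences of the abc conjecture over a number field

The heights on the curves are from the starting library (`Pool.Agent.W223.AC.keyG`).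
-/

set_option autoImplicit false

namespace Pool.Agent.N757.SG

open NumberField IsDedekindDomain Height Polynomial Pool.Agent.N757.RD Pool.Agent.N757.TL
  Pool.Agent.N757.SL
open Pool.Agent.W223.AC (NearP tt pt lamF lamI)
open Pool.Agent.W223.CV (cc ct lin)
open Pool.Agent.W223.VD (cnt)

variable {K : Type} [Field K] [NumberField K]

open Classical in
theorem W_cc (S : Finset ℕ) (A : HeightOneSpectrum (𝓞 K) → Prop) :
    W {v : HeightOneSpectrum (𝓞 K) | (∀ p ∈ S, (p : 𝓞 K) ∉ v.asIdeal) ∧ A v} = cc S A := by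
  unfold W cc
  refine finsum_congr fun v => ?_
  rw [finsum_eq_if]
  rfl

theorem near_of_lt (a : ℚ) (x : K) (v : HeightOneSpectrum (𝓞 K))
    (h : v.valuation K (x - (a : K)) < 1) : Pool.Agent.W223.CV.Near (pt a) x v := by
  have hd0 : (a.den : K) ≠ 0 := by exact_mod_cast a.den_nz
  have hlin : lin (pt a) x = -((a.den : K) * (x - (a : K))) := by
    unfold lin pt
    have : (a : K) = (a.num : K) / (a.den : K) := by
      exact_mod_cast Rat.cast_def (K := K) a
    rw [this]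
    field_simp
    push_cast
    ring
  have hn : v.valuation K ((a.den : ℕ) : K) ≤ 1 := by
    have := v.valuation_le_one (K := K) ((a.den : ℕ) : 𝓞 K)
    simpa using this
  unfold Pool.Agent.W223.CV.Near
  rw [hlin, Valuation.map_neg, map_mul]
  calc v.valuation K (a.den : K) * v.valuation K (x - (a : K)) ≤
      1 * v.valuation K (x - (a : K)) := by gcongr
    _ < max (v.valuation K x) 1 := by
        rw [one_mul]
        exact h.trans_le (le_max_right _ _)

theorem lin_ne (a : ℚ) {x : K} (h : x ≠ (a : K)) : lin (pt a) x ≠ 0 := by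
  have hd0 : (a.den : K) ≠ 0 := by exact_mod_cast a.den_nz
  have hlin : lin (pt a) x = -((a.den : K) * (x - (a : K))) := by
    unfold lin pt
    have : (a : K) = (a.num : K) / (a.den : K) := by
      exact_mod_cast Rat.cast_def (K := K) a
    rw [this]
    field_simp
    push_cast
    ring
  rw [hlin]
  exact neg_ne_zero.2 (mul_ne_zero hd0 (sub_ne_zero.2 h))

/-- the pieces in `J` and the others -/
theorem cc_pieces {k : ℕ} (S : Finset ℕ) (J : Finset (Fin k))
    (Q : Fin k → HeightOneSpectrum (𝓞 K) → Prop) (hQ : ∀ l, {v | Q l v}.Finite) :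
    cc S (fun v => ∃ l ∈ (Finset.univ : Finset (Fin k)), Q l v) ≤
      cc S (fun v => ∃ l ∈ J, Q l v) + ∑ l ∈ Jᶜ, cc S (Q l) := by
  classical
  have hfin : ∀ I : Finset (Fin k), {v | ∃ l ∈ I, Q l v}.Finite := by
    intro I
    refine (Set.finite_iUnion fun l => hQ l).subset ?_
    rintro v ⟨l, -, hv⟩
    exact Set.mem_iUnion.mpr ⟨l, hv⟩
  have h1 := Pool.Agent.W223.CV.cc_mono (S := S) (le_refl S)
    (A := fun v => (∃ l ∈ J, Q l v) ∨ ∃ l ∈ Jᶜ, Q l v)
    (A' := fun v => ∃ l ∈ (Finset.univ : Finset (Fin k)), Q l v) ((hfin J).union (hfin Jᶜ)) (by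
      rintro v - ⟨l, -, hl⟩
      by_cases h : l ∈ J
      · exact Or.inl ⟨l, h, hl⟩
      · exact Or.inr ⟨l, Finset.mem_compl.mpr h, hl⟩)
  have h2 := Pool.Agent.W223.CV.cc_or S (hfin J) (hfin Jᶜ)
  have h3 := Pool.Agent.W223.CV.cc_exists S Jᶜ Q hQ
  linarith

theorem finite_mem {p : ℕ} (hp : p ≠ 0) :
    {v : HeightOneSpectrum (𝓞 K) | (p : 𝓞 K) ∈ v.asIdeal}.Finite := by
  have hp' : (p : K) ≠ 0 := by exact_mod_cast hp
  refine (Pool.Agent.W223.AC.val_finite (p : K) hp').subset fun v hv => ?_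
  have h1 := (v.valuation_lt_one_iff_mem (K := K) ((p : ℕ) : 𝓞 K)).2 hv
  simpa using h1

/-- **Stacky curves.** -/
theorem abc_curve (h : ABC K) (A : Type) [CommRing A] [IsDedekindDomain A] [Algebra ℚ A]
    [Algebra ℚ[X] A] [IsScalarTower ℚ ℚ[X] A] [Module.Finite ℚ[X] A] [FaithfulSMul ℚ[X] A]
    (a : Fin 3 → ℚ) (ha : Function.Injective a) (k : ℕ) (j : Fin k → Fin 3) (s : Fin k → ℕ)
    (z : ∀ l, Fin (s l + 1) → A)
    (hz0 : ∀ l, z l 0 = tt A - algebraMap ℚ[X] A (C (a (j l))))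
    (hcov : ∀ i, ∏ l with j l = i, Ideal.span (Set.range (z l)) ≤
      (Ideal.span {tt A - algebraMap ℚ[X] A (C (a i))}).radical)
    (e : Fin k → ℕ) {S : Set (HeightOneSpectrum (𝓞 K))} (hS : S.Finite) {ε : ℝ} (hε : 0 < ε) :
    ∃ (Z : Finset K) (C₀ : ℝ), ∀ φ : A →+* K, φ (tt A) ∉ Z →
      (∀ v ∉ S, ∀ l, e l ≠ 0 → NearP (z l) φ v → ∃ m : ℕ, e l ∣ m ∧
        (∀ i, v.valuation K (φ (z l i)) ≤ WithZero.exp (-(m : ℤ))) ∧
        ∃ i, v.valuation K (φ (z l i)) = WithZero.exp (-(m : ℤ))) →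
      (1 - (∑ l, (Module.finrank ℚ (A ⧸ Ideal.span (Set.range (z l))) : ℝ) /
        (e l * Module.finrank ℚ[X] A)) - ε) * D (φ (tt A)) ≤
        W {v | v ∉ S ∧ ∃ l, e l = 0 ∧ NearP (z l) φ v} + C₀ := by
  classical
  have hk0 : (0 : ℝ) < (k : ℝ) + 1 := by positivity
  obtain ⟨η, hη⟩ : ∃ η, η = ε / 2 / ((k : ℝ) + 1) := ⟨_, rfl⟩
  have hη0 : 0 < η := by rw [hη]; positivity
  obtain ⟨M, Ck, G, hM, hCk, hG, hkey⟩ := Pool.Agent.W223.AC.keyG
    (Pool.Agent.W223.AC.nbp (Pool.Agent.W976.AC.EX.t Pool.Agent.W398.AC.DIM.t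
      Pool.Agent.W193.AC.FINQ.t Pool.Agent.W989.AC.MULT.t) Pool.Agent.W756.AC.t
      (Pool.Agent.W410.AC.t Pool.Agent.W131.AC.t) Pool.Agent.W223.AC.SUMP.t
      Pool.Agent.W460.AC.t)
    Pool.Agent.W989.AC.MULT.t Pool.Agent.W597.AC.t A a j s z hz0 hcov η hη0
  obtain ⟨Q, hQ⟩ : ∃ Q : Finset ℕ, Q = hS.toFinset.image fun v => Ideal.absNorm v.asIdeal :=
    ⟨_, rfl⟩
  have hQS : ∀ v : HeightOneSpectrum (𝓞 K), (∀ p ∈ Q, (p : 𝓞 K) ∉ v.asIdeal) → v ∉ S := by
    intro v hv hvS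
    refine hv (Ideal.absNorm v.asIdeal) ?_ (Ideal.absNorm_mem v.asIdeal)
    rw [hQ]
    exact Finset.mem_image_of_mem _ (hS.mem_toFinset.2 hvS)
  have hQ0 : ∀ p ∈ Q ∪ M.primeFactors, p ≠ 0 := by
    intro p hp
    rcases Finset.mem_union.1 hp with hp | hp
    · rw [hQ, Finset.mem_image] at hp
      obtain ⟨v, -, rfl⟩ := hp
      rw [Ne, Ideal.absNorm_eq_zero_iff]
      exact v.ne_bot
    · exact (Nat.prime_of_mem_primeFactors hp).ne_zero
  obtain ⟨S₂, hS₂⟩ : ∃ S₂ : Set (HeightOneSpectrum (𝓞 K)),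
    S₂ = {v | ¬ ∀ p ∈ Q ∪ M.primeFactors, (p : 𝓞 K) ∉ v.asIdeal} := ⟨_, rfl⟩
  have hS₂f : S₂.Finite := by
    refine ((Q ∪ M.primeFactors).finite_toSet.biUnion
      (t := fun p => {v : HeightOneSpectrum (𝓞 K) | (p : 𝓞 K) ∈ v.asIdeal})
      fun p hp => finite_mem (hQ0 p hp)).subset fun v hv => ?_
    rw [hS₂, Set.mem_ofPred_eq] at hv
    push Not at hv
    obtain ⟨p, hp, hpv⟩ := hv
    exact Set.mem_biUnion (Finset.mem_coe.2 hp) hpv
  have hsq : Squarefree (∏ i : Fin 3, (X - C ((a i : ℚ) : K))) := by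
    refine (separable_prod_X_sub_C_iff.2 fun i i' hii => ha ?_).squarefree
    exact_mod_cast hii
  obtain ⟨C₁, h1⟩ := abc_gen h (fun i : Fin 3 => (X - C ((a i : ℚ) : K))) hsq (fun _ => 0) 1 hS₂f
    (half_pos hε)
  have hmap : G.map (algebraMap ℚ K) ≠ 0 := (Polynomial.map_ne_zero_iff
    (algebraMap ℚ K).injective).2 hG
  refine ⟨(G.map (algebraMap ℚ K)).roots.toFinset ∪ Finset.univ.image fun i => ((a i : ℚ) : K),
    C₁ + k * (Module.finrank ℚ K * Ck), fun φ hφZ hint => ?_⟩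
  obtain ⟨x, hx⟩ : ∃ x, x = φ (tt A) := ⟨_, rfl⟩
  rw [← hx] at hφZ ⊢
  rw [Finset.mem_union, not_or] at hφZ
  have hGx : aeval (φ (tt A)) G ≠ 0 := by
    intro h0
    refine hφZ.1 (Multiset.mem_toFinset.2 ((mem_roots hmap).2 ?_))
    rw [IsRoot.def, eval_map, ← aeval_def, hx]
    exact h0
  have hne : ∀ i, φ (tt A) ≠ ((a i : ℚ) : K) := by
    intro i h0
    refine hφZ.2 (Finset.mem_image.2 ⟨i, Finset.mem_univ i, ?_⟩)
    rw [hx, h0]
  obtain ⟨hk1, hk2⟩ := hkey K φ hGx hne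
  have hk1 := hk1 Q
  rw [← hx] at hk1
  have hH : 0 ≤ D x := D_nonneg x
  have hn0 : (0 : ℝ) < Module.finrank ℚ K := by exact_mod_cast Module.finrank_pos
  -- abc
  have h2 := h1 x (fun i => by
      simp only [eval_sub, eval_X, eval_C]
      rw [hx]
      exact sub_ne_zero.2 (hne i))
    (fun v _ => ⟨fun i hi => absurd rfl hi, fun _ _ => ⟨v.valuation K x, (pow_one _).symm⟩⟩)
  simp only [natDegree_X_sub_C] at h2
  have h3 : W (JG (fun i : Fin 3 => (X - C ((a i : ℚ) : K))) (fun _ => 0) 1 S₂ x) ≤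
      cnt (Q ∪ M.primeFactors) (fun i => pt (a i)) x := by
    rw [Pool.Agent.W223.CV.cnt_eq, ← W_cc]
    refine W_mono ?_ ?_
    · rintro v ⟨hv1, hv2⟩
      refine ⟨?_, ?_⟩
      · by_contra hcon
        apply hv1
        rw [hS₂]
        exact hcon
      · rcases hv2 with ⟨h0, -⟩ | ⟨i, -, hi⟩
        · exact absurd h0 one_ne_zero
        · refine ⟨i, Finset.mem_univ i, near_of_lt (a i) x v ?_⟩
          simpa only [eval_sub, eval_X, eval_C] using hi
    · refine (Set.finite_iUnion fun i : Fin 3 => Pool.Agent.W223.CV.near_finite (pt (a i)) x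
        (lin_ne (a i) (by rw [hx]; exact hne i))).subset ?_
      rintro v ⟨-, i, -, hv⟩
      exact Set.mem_iUnion.2 ⟨i, hv⟩
  -- the pieces
  have hzne : ∀ l, φ (z l 0) ≠ 0 := by
    intro l
    rw [hz0 l, map_sub]
    have : φ (algebraMap ℚ[X] A (Polynomial.C (a (j l)))) = (a (j l) : K) :=
      eq_ratCast (φ.comp ((algebraMap ℚ[X] A).comp Polynomial.C)) (a (j l))
    rw [this]
    exact sub_ne_zero.mpr (hne (j l))
  have hfin : ∀ l, {v : HeightOneSpectrum (𝓞 K) | NearP (z l) φ v}.Finite :=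
    fun l => Pool.Agent.W223.AC.near_finite (z l) φ (hzne l)
  obtain ⟨J, hJ⟩ : ∃ J : Finset (Fin k), J = Finset.univ.filter fun l => e l = 0 := ⟨_, rfl⟩
  have h4 := cc_pieces Q J (fun l (v : HeightOneSpectrum (𝓞 K)) => NearP (z l) φ v) hfin
  have h5 : cc Q (fun v : HeightOneSpectrum (𝓞 K) => ∃ l ∈ J, NearP (z l) φ v) ≤
      W {v | v ∉ S ∧ ∃ l, e l = 0 ∧ NearP (z l) φ v} := by
    rw [← W_cc]
    refine W_mono ?_ ?_
    · rintro v ⟨hv1, l, hl, hv2⟩
      rw [hJ, Finset.mem_filter] at hl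
      exact ⟨hQS v hv1, l, hl.2, hv2⟩
    · refine (Set.finite_iUnion fun l => hfin l).subset ?_
      rintro v ⟨-, l, -, hv⟩
      exact Set.mem_iUnion.2 ⟨l, hv⟩
  have h6 : ∀ l ∈ Jᶜ, cc Q (fun v : HeightOneSpectrum (𝓞 K) => NearP (z l) φ v) ≤
      ((Module.finrank ℚ (A ⧸ Ideal.span (Set.range (z l))) : ℝ) /
          (e l * Module.finrank ℚ[X] A) + η) * D x + Module.finrank ℚ K * Ck := by
    intro l hl
    have hel : e l ≠ 0 := by
      intro h0
      rw [hJ, Finset.mem_compl, Finset.mem_filter] at hl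
      exact hl ⟨Finset.mem_univ l, h0⟩
    obtain ⟨h7, h8⟩ := hk2 l
    have he1 : (1 : ℝ) ≤ e l := by exact_mod_cast Nat.one_le_iff_ne_zero.2 hel
    have h9 := Pool.Agent.W223.AC.split_order (z l) φ Q (hzne l) h7 (e l) (by
      intro v hvQ hnear i
      obtain ⟨m, hm, hle, i', hi'⟩ := hint v (hQS v hvQ) l hel hnear
      have hm0 : m ≠ 0 := by
        rintro rfl
        have h9 := hnear.2 i'
        rw [hi'] at h9
        simp at h9
      obtain ⟨c', rfl⟩ := hm
      refine (hle i).trans ?_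
      rw [WithZero.exp_le_exp, neg_le_neg_iff]
      have : 1 ≤ c' := by
        rcases Nat.eq_zero_or_pos c' with h | h
        · rw [h, mul_zero] at hm0; exact absurd rfl hm0
        · exact h
      exact_mod_cast Nat.le_mul_of_pos_right _ this)
    have h10 : 0 ≤ ∑ w : InfinitePlace K, (w.mult : ℝ) * lamI (z l) φ w :=
      Finset.sum_nonneg fun w _ => mul_nonneg (Nat.cast_nonneg _)
        (Pool.Agent.W223.AC.lamI_nonneg _ _ _)
    have h11 : Real.log (mulHeight₁ (φ (tt A))) = D x := by rw [hx]; rfl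
    rw [h11] at h8
    have h12 : (e l : ℝ) * cc Q (fun v : HeightOneSpectrum (𝓞 K) => NearP (z l) φ v) ≤
        ((Module.finrank ℚ (A ⧸ Ideal.span (Set.range (z l))) : ℝ) /
          Module.finrank ℚ[X] A + η) * D x + Module.finrank ℚ K * Ck := by linarith
    have he0 : (0 : ℝ) < e l := by linarith
    refine le_of_mul_le_mul_left (h12.trans ?_) he0
    have h13 : (e l : ℝ) * (((Module.finrank ℚ (A ⧸ Ideal.span (Set.range (z l))) : ℝ) /
          (e l * Module.finrank ℚ[X] A) + η) * D x + Module.finrank ℚ K * Ck) =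
        ((Module.finrank ℚ (A ⧸ Ideal.span (Set.range (z l))) : ℝ) /
          Module.finrank ℚ[X] A) * D x + e l * (η * D x + Module.finrank ℚ K * Ck) := by
      rw [mul_comm (e l : ℝ) (Module.finrank ℚ[X] A : ℝ), ← div_div]
      field_simp
      ring
    rw [h13]
    have h14 : 0 ≤ η * D x + Module.finrank ℚ K * Ck := by positivity
    nlinarith
  have h7 := Finset.sum_le_sum h6
  have h8 : ∑ l ∈ Jᶜ, (((Module.finrank ℚ (A ⧸ Ideal.span (Set.range (z l))) : ℝ) /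
          (e l * Module.finrank ℚ[X] A) + η) * D x + Module.finrank ℚ K * Ck) ≤
      (∑ l, (Module.finrank ℚ (A ⧸ Ideal.span (Set.range (z l))) : ℝ) /
        (e l * Module.finrank ℚ[X] A)) * D x + ε / 2 * D x + k * (Module.finrank ℚ K * Ck) := by
    have hc : ((Jᶜ.card : ℕ) : ℝ) ≤ k := by
      have := Finset.card_le_univ Jᶜ
      rw [Fintype.card_fin] at this
      exact_mod_cast this
    have h9 : ((Jᶜ.card : ℕ) : ℝ) * η ≤ ε / 2 := by
      rw [hη, mul_div_assoc', div_le_iff₀ hk0]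
      nlinarith
    have h10 : ((Jᶜ.card : ℕ) : ℝ) * (Module.finrank ℚ K * Ck) ≤
        k * (Module.finrank ℚ K * Ck) := mul_le_mul_of_nonneg_right hc (by positivity)
    have h11 : ∑ l ∈ Jᶜ, (Module.finrank ℚ (A ⧸ Ideal.span (Set.range (z l))) : ℝ) /
          (e l * Module.finrank ℚ[X] A) ≤ ∑ l, (Module.finrank ℚ (A ⧸ Ideal.span
            (Set.range (z l))) : ℝ) / (e l * Module.finrank ℚ[X] A) :=
      Finset.sum_le_sum_of_subset_of_nonneg (Finset.subset_univ _) fun l _ _ => by positivity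
    rw [Finset.sum_add_distrib, ← Finset.sum_mul, Finset.sum_add_distrib, Finset.sum_const,
      Finset.sum_const, nsmul_eq_mul, nsmul_eq_mul]
    have h12 := mul_le_mul_of_nonneg_right h11 hH
    have h13 := mul_le_mul_of_nonneg_right h9 hH
    nlinarith
  have h9 : (1 - ε / 2) * D x ≤ cnt (Q ∪ M.primeFactors) (fun i => pt (a i)) x + C₁ := by
    refine le_trans (le_of_eq ?_) (h2.trans (add_le_add_left h3 C₁))
    simp
    left
    norm_num
  have h10 := hk1.trans h4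
  linarith

end Pool.Agent.N757.SG
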