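import Pool.Agent.N757.SL.Three
import Pool.Agent.N746.GR.Belyi2

/-!
# All stacky curves with coarse space the projective line: consequences of the abc conjecture
-/

set_option autoImplicit false

namespace Pool.Agent.N757.SG

open NumberField IsDedekindDomain Height Real Polynomial Pool.Agent.N757.RD Pool.Agent.N757.TL
  Pool.Agent.N757.SL Pool.Agent.N746.GR

variable {K : Type} [Field K] [NumberField K]

/-- the inequality for a set of data -/
def Ine (A : Dat K) : Prop :=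
  ∀ ε : ℝ, 0 < ε → ∃ C : ℝ, ∀ x, A.P x → A.h x ≤ (1 + ε) * W (A.S x) + C

theorem ine_map {A B : Dat K} (hA : Fin' A) (h : Mapp A B) (hB : Ine B) : Ine A := by
  obtain ⟨N, C, F, G, _, hN, hC, -, -, -, -, -, H⟩ := h
  intro ε hε
  obtain ⟨q, hq⟩ : ∃ q, q = 1 + (N - 1) * (1 + ε) := ⟨_, rfl⟩
  have hN1 : 0 ≤ (N - 1) * (1 + ε) := mul_nonneg (by linarith) (by linarith)
  have hq1 : 1 ≤ q := by rw [hq]; linarith
  obtain ⟨e, he⟩ : ∃ e, e = ε / q := ⟨_, rfl⟩
  have he0 : 0 < e := by rw [he]; positivity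
  obtain ⟨C₁, hC₁⟩ := hB e he0
  refine ⟨(1 + ε) * C + (1 + ε) * |C₁ + C|, fun x hx => ?_⟩
  have hW := W_nonneg (A.S x)
  have ha := abs_nonneg (C₁ + C)
  rcases H x hx with h1 | ⟨-, h1, h2, -, E, hE, h3, h4⟩
  · have h5 : 0 ≤ (1 + ε) * W (A.S x) := by positivity
    have h6 : 0 ≤ (1 + ε) * |C₁ + C| := by positivity
    have h7 : C ≤ (1 + ε) * C := by nlinarith
    linarith
  · have h5 := hC₁ _ h1
    have h6 := W_mono h3 ((hA.fin x hx).union hE)
    have h7 := W_union (hA.fin x hx) hE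
    have h8 : (1 + e) * W (B.S (F.eval x / G.eval x)) ≤
        (1 + e) * (W (A.S x) + (N - 1) * A.h x + C) :=
      mul_le_mul_of_nonneg_left (by linarith) (by linarith)
    have h9 : (N - (1 + e) * (N - 1)) * A.h x ≤ (1 + e) * W (A.S x) + (1 + e) * C + (C₁ + C) := by
      linarith
    have h10 : e * q = ε := by rw [he]; field_simp
    have h11 : (1 + ε) * (N - (1 + e) * (N - 1)) = 1 + e := by
      rw [hq] at h10
      linear_combination -h10
    have h12 := mul_le_mul_of_nonneg_left h9 (by linarith : (0 : ℝ) ≤ 1 + ε)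
    rw [← mul_assoc, h11] at h12
    have h13 : (1 + ε) * (C₁ + C) ≤ (1 + ε) * |C₁ + C| :=
      mul_le_mul_of_nonneg_left (le_abs_self _) (by linarith)
    have h14 : (1 + ε) * |C₁ + C| ≤ (1 + e) * ((1 + ε) * |C₁ + C|) := by
      have : 0 ≤ (1 + ε) * |C₁ + C| := by positivity
      nlinarith
    have h15 : (1 + e) * A.h x ≤
        (1 + e) * ((1 + ε) * W (A.S x) + ((1 + ε) * C + (1 + ε) * |C₁ + C|)) := by
      calc (1 + e) * A.h x ≤ (1 + ε) * ((1 + e) * W (A.S x) + (1 + e) * C + (C₁ + C)) := h12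
        _ = (1 + e) * ((1 + ε) * W (A.S x) + (1 + ε) * C) + (1 + ε) * (C₁ + C) := by ring
        _ ≤ (1 + e) * ((1 + ε) * W (A.S x) + (1 + ε) * C) + (1 + e) * ((1 + ε) * |C₁ + C|) := by
            linarith
        _ = _ := by ring
    exact le_of_mul_le_mul_left h15 (by linarith)

theorem ine_dom {A B : Dat K} (h : Dom A B) (hB : Ine B) : Ine A := by
  induction h using Relation.ReflTransGen.head_induction_on with
  | refl => exact hB
  | head h1 _ ih => exact ine_map h1.1 h1.2 ih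

theorem ine_abc (h : ABC K) : Ine (dA K) := by
  intro ε hε
  obtain ⟨C, hC⟩ := h ε hε
  exact ⟨C, fun x hx => hC x hx⟩

theorem ine_all (h : ABC K) {P : K[X]} (hP : Squarefree P) (h2 : 2 ≤ P.natDegree) :
    Ine (dP P) := ine_dom (dom_all K hP h2) (ine_abc h)

theorem W_empty : W (∅ : Set (HeightOneSpectrum (𝓞 K))) = 0 := by
  rw [W_eq Set.finite_empty]
  simp

theorem W_biUnion {ι : Type} (s : Finset ι) (E : ι → Set (HeightOneSpectrum (𝓞 K)))
    (hE : ∀ i, (E i).Finite) : (⋃ i ∈ s, E i).Finite ∧ W (⋃ i ∈ s, E i) ≤ ∑ i ∈ s, W (E i) := by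
  classical
  induction s using Finset.induction_on with
  | empty => simp [W_empty]
  | @insert a s ha ih =>
    rw [Finset.set_biUnion_insert, Finset.sum_insert ha]
    refine ⟨(hE a).union ih.1, ?_⟩
    have := W_union (hE a) ih.1
    linarith [ih.2]

variable {m : ℕ}

/-- integrality at `v` -/
def IntG (P : Fin m → K[X]) (e : Fin m → ℕ) (r : ℕ) (v : HeightOneSpectrum (𝓞 K)) (t : K) : Prop :=
  (∀ i, e i ≠ 0 → v.valuation K ((P i).eval t) < 1 → PowAt (e i) v ((P i).eval t)) ∧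
    (r ≠ 0 → 1 < v.valuation K t → PowAt r v t)

/-- the primes outside `S` at which `t` meets the divisor -/
def JG (P : Fin m → K[X]) (e : Fin m → ℕ) (r : ℕ) (S : Set (HeightOneSpectrum (𝓞 K))) (t : K) :
    Set (HeightOneSpectrum (𝓞 K)) :=
  {v | v ∉ S ∧ ((r = 0 ∧ 1 < v.valuation K t) ∨ ∃ i, e i = 0 ∧ v.valuation K ((P i).eval t) < 1)}

theorem exists_lt {ι : Type} (s : Finset ι) (f : ι → K) (v : HeightOneSpectrum (𝓞 K))
    (h : FinitePlace.mk v (∏ i ∈ s, f i) < 1) : ∃ i ∈ s, FinitePlace.mk v (f i) < 1 := by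
  by_contra hcon
  push Not at hcon
  rw [map_prod] at h
  refine absurd (Finset.prod_induction (fun i => FinitePlace.mk v (f i)) (fun a : ℝ => 1 ≤ a) ?_
    le_rfl hcon) (not_le.2 h)
  intro a b ha hb
  exact one_le_mul_of_one_le_of_one_le ha hb

/-- **Stacky curves with coarse space the projective line.** -/
theorem abc_gen (h : ABC K) (P : Fin m → K[X]) (hP : Squarefree (∏ i, P i)) (e : Fin m → ℕ) (r : ℕ)
    {S : Set (HeightOneSpectrum (𝓞 K))} (hS : S.Finite) {ε : ℝ} (hε : 0 < ε) :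
    ∃ C : ℝ, ∀ t : K, (∀ i, (P i).eval t ≠ 0) → (∀ v ∉ S, IntG P e r v t) →
      (-1 - 1 / (r : ℝ) + ∑ i, ((P i).natDegree : ℝ) * (1 - 1 / (e i : ℝ)) - ε) * D t ≤
        W (JG P e r S t) + C := by
  classical
  have hP0 : (∏ i, P i) ≠ 0 := hP.ne_zero
  have hPi : ∀ i, P i ≠ 0 := fun i => Finset.prod_ne_zero_iff.1 hP0 i (Finset.mem_univ i)
  obtain ⟨n, hn⟩ : ∃ n, n = (∏ i, P i).natDegree := ⟨_, rfl⟩
  have hn' : (n : ℝ) = ∑ i, ((P i).natDegree : ℝ) := by
    rw [hn, natDegree_prod _ _ fun i _ => hPi i]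
    push_cast
    rfl
  obtain ⟨σ, hσ⟩ : ∃ σ, σ = 1 / (r : ℝ) + ∑ i, ((P i).natDegree : ℝ) * (1 / (e i : ℝ)) := ⟨_, rfl⟩
  have hσ0 : 0 ≤ σ := by
    rw [hσ]
    have : 0 ≤ ∑ i, ((P i).natDegree : ℝ) * (1 / (e i : ℝ)) :=
      Finset.sum_nonneg fun i _ => by positivity
    positivity
  have hcoef : -1 - 1 / (r : ℝ) + ∑ i, ((P i).natDegree : ℝ) * (1 - 1 / (e i : ℝ)) - ε =
      (n : ℝ) - 1 - σ - ε := by
    have : ∑ i, ((P i).natDegree : ℝ) * (1 - 1 / (e i : ℝ)) =
        (∑ i, ((P i).natDegree : ℝ)) - ∑ i, ((P i).natDegree : ℝ) * (1 / (e i : ℝ)) := by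
      rw [← Finset.sum_sub_distrib]
      exact Finset.sum_congr rfl fun i _ => by ring
    rw [this, hn', hσ]
    ring
  rw [hcoef]
  rcases Nat.lt_or_ge n 2 with hlt | hge
  · refine ⟨0, fun t _ _ => ?_⟩
    have h1 : (n : ℝ) ≤ 1 := by exact_mod_cast (by omega : n ≤ 1)
    have h2 := D_nonneg t
    have h3 := W_nonneg (JG P e r S t)
    have h4 : ((n : ℝ) - 1 - σ - ε) * D t ≤ 0 :=
      mul_nonpos_of_nonpos_of_nonneg (by linarith) h2
    linarith
  -- heights of the values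
  have hval : ∀ i, ∃ C : ℝ, 0 ≤ C ∧ ∀ x : K, D ((P i).eval x) ≤ ((P i).natDegree : ℝ) * D x + C :=
    fun i => Pool.Agent.N746.RK.D_eval_le _ _ le_rfl
  choose c hc0 hc using hval
  have hcs : 0 ≤ ∑ i, c i := Finset.sum_nonneg fun i _ => hc0 i
  obtain ⟨ε', hε'⟩ : ∃ ε', ε' = ε / (n + 1 + σ) := ⟨_, rfl⟩
  have hden : (0 : ℝ) < n + 1 + σ := by positivity
  have hε'0 : 0 < ε' := by rw [hε']; positivity
  obtain ⟨C₀, hC₀⟩ := ine_all h hP (by omega) ε' hε'0
  have hWS := W_nonneg S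
  refine ⟨ε' * (∑ i, c i) + (1 + ε') * (W S + ∑ i, c i) + |C₀|, fun t ht hint => ?_⟩
  have hPt : (∏ i, P i).eval t ≠ 0 := by
    rw [eval_prod]
    exact Finset.prod_ne_zero_iff.2 fun i _ => ht i
  have hD := D_nonneg t
  have h1 := hC₀ t hPt
  change ((((∏ i, P i).natDegree : ℝ)) - 1) * D t ≤ (1 + ε') * W (Pool.Agent.N746.RK.J (∏ i, P i) t) + C₀ at h1
  rw [← hn] at h1
  -- the poles
  obtain ⟨U₀, hU₀⟩ : ∃ U : Set (HeightOneSpectrum (𝓞 K)), U = {v | 1 < FinitePlace.mk v t} := ⟨_, rfl⟩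
  have fU₀ : U₀.Finite := by rw [hU₀]; exact Pool.Agent.N746.RK.finite_gt t
  have fl : ∀ i, (lows ((P i).eval t)).Finite := fun i => finite_lows (ht i)
  have hU₀D : W U₀ ≤ D t := by
    by_cases ht0 : t = 0
    · have : U₀ = ∅ := by
        rw [hU₀, ht0]
        ext v
        simp
      rw [this, W_empty]
      exact hD
    · have : U₀ = lows t⁻¹ := by
        rw [hU₀]
        ext v
        have : 0 < FinitePlace.mk v t := FinitePlace.pos_iff.2 ht0
        simp only [Set.mem_ofPred_eq, lows, map_inv₀]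
        rw [inv_lt_one₀ this]
      rw [this, ← D_inv]
      exact W_lows_le (inv_ne_zero ht0)
  have mkval1 : ∀ v : HeightOneSpectrum (𝓞 K), 1 < FinitePlace.mk v t ↔ 1 < v.valuation K t := by
    intro v
    rw [← not_le, ← not_le, mk_le_one_iff]
  -- the divisor
  have hJ1 : JG P e r S t ⊆ U₀ ∪ ⋃ i ∈ (Finset.univ : Finset (Fin m)), lows ((P i).eval t) := by
    rintro v ⟨-, ⟨-, h2⟩ | ⟨i, -, h2⟩⟩
    · left
      rw [hU₀]
      exact (mkval1 v).2 h2
    · right
      simp only [Set.mem_iUnion]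
      exact ⟨i, Finset.mem_univ i, (mk_lt_one_iff v _).2 h2⟩
  obtain ⟨fB, hB⟩ := W_biUnion (Finset.univ : Finset (Fin m)) (fun i => lows ((P i).eval t)) fl
  have fJ : (JG P e r S t).Finite := (fU₀.union fB).subset hJ1
  have hA1 : W (JG P e r S t) ≤ (n + 1) * D t + ∑ i, c i := by
    have h2 := W_mono hJ1 (fU₀.union fB)
    have h3 := W_union fU₀ fB
    have h4 : ∑ i, W (lows ((P i).eval t)) ≤ ∑ i, (((P i).natDegree : ℝ) * D t + c i) :=
      Finset.sum_le_sum fun i _ => (W_lows_le (ht i)).trans (hc i t)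
    rw [Finset.sum_add_distrib, ← Finset.sum_mul, ← hn'] at h4
    linarith
  -- the stacky points
  obtain ⟨E₀, hE₀⟩ : ∃ U : Set (HeightOneSpectrum (𝓞 K)),
    U = {v | v ∈ U₀ ∧ r ≠ 0 ∧ v.valuation K t⁻¹ < 1 ∧ PowAt r v t⁻¹} := ⟨_, rfl⟩
  obtain ⟨E, hE⟩ : ∃ E : Fin m → Set (HeightOneSpectrum (𝓞 K)),
    E = fun i => {v | e i ≠ 0 ∧ v.valuation K ((P i).eval t) < 1 ∧ PowAt (e i) v ((P i).eval t)} :=
      ⟨_, rfl⟩
  have fE₀ : E₀.Finite := fU₀.subset fun v hv => by rw [hE₀] at hv; exact hv.1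
  have fE : ∀ i, (E i).Finite := fun i => (fl i).subset fun v hv => by
    rw [hE] at hv
    exact (mk_lt_one_iff v _).2 hv.2.1
  have wE₀ : W E₀ ≤ 1 / (r : ℝ) * D t := by
    by_cases hr : r = 0
    · have : E₀ = ∅ := by
        rw [hE₀]
        ext v
        simp [hr]
      rw [this, W_empty, hr]
      simp
    · by_cases ht0 : t = 0
      · have : E₀ = ∅ := by
          rw [hE₀, hU₀, ht0]
          ext v
          simp
        rw [this, W_empty]
        positivity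
      · have := (W_pow_le (inv_ne_zero ht0) hr (A := E₀) fun v hv => by
          rw [hE₀] at hv; exact ⟨hv.2.2.1, hv.2.2.2⟩).2
        rwa [D_inv] at this
  have wE : ∀ i, W (E i) ≤ 1 / (e i : ℝ) * (((P i).natDegree : ℝ) * D t + c i) := by
    intro i
    by_cases hr : e i = 0
    · have : E i = ∅ := by
        rw [hE]
        ext v
        simp [hr]
      rw [this, W_empty, hr]
      simp
    · have := (W_pow_le (ht i) hr (A := E i) fun v hv => by
          rw [hE] at hv; exact ⟨hv.2.1, hv.2.2⟩).2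
      exact this.trans (mul_le_mul_of_nonneg_left (hc i t) (by positivity))
  have hle1 : ∀ k : ℕ, 1 / (k : ℝ) ≤ 1 := by
    intro k
    rcases Nat.eq_zero_or_pos k with rfl | hk
    · simp
    · rw [div_le_one (by exact_mod_cast hk)]
      exact_mod_cast hk
  have hsub : Pool.Agent.N746.RK.J (∏ i, P i) t ⊆
      (JG P e r S t ∪ S) ∪ (E₀ ∪ ⋃ i ∈ (Finset.univ : Finset (Fin m)), E i) := by
    intro v hv
    by_cases hvS : v ∈ S
    · exact Or.inl (Or.inr hvS)
    obtain ⟨i1, i2⟩ := hint v hvS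
    rcases hv with hv | hv
    · by_cases hr : r = 0
      · exact Or.inl (Or.inl ⟨hvS, Or.inl ⟨hr, (mkval1 v).1 hv⟩⟩)
      · right; left
        have h2 := (mkval1 v).1 hv
        rw [hE₀, hU₀]
        refine ⟨hv, hr, ?_, ?_⟩
        · rw [map_inv₀]
          exact inv_lt_one_of_one_lt₀ h2
        · obtain ⟨g, hg⟩ := i2 hr h2
          exact ⟨g⁻¹, by rw [map_inv₀, hg, inv_pow]⟩
    · rw [eval_prod] at hv
      obtain ⟨i, -, hi⟩ := exists_lt _ _ v hv
      have hi' := (mk_lt_one_iff v _).1 hi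
      by_cases he : e i = 0
      · exact Or.inl (Or.inl ⟨hvS, Or.inr ⟨i, he, hi'⟩⟩)
      · right; right
        simp only [Set.mem_iUnion]
        refine ⟨i, Finset.mem_univ i, ?_⟩
        rw [hE]
        exact ⟨he, hi', i1 i he hi'⟩
  obtain ⟨fB', hB'⟩ := W_biUnion (Finset.univ : Finset (Fin m)) E fE
  have h2 := W_mono hsub ((fJ.union hS).union (fE₀.union fB'))
  have h3 := W_union (fJ.union hS) (fE₀.union fB')
  have h4 := W_union fJ hS
  have h5 := W_union fE₀ fB'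
  have h6 : ∑ i, W (E i) ≤ (∑ i, ((P i).natDegree : ℝ) * (1 / (e i : ℝ))) * D t + ∑ i, c i := by
    rw [Finset.sum_mul, ← Finset.sum_add_distrib]
    refine Finset.sum_le_sum fun i _ => (wE i).trans ?_
    have h7 : 1 / (e i : ℝ) * c i ≤ 1 * c i := mul_le_mul_of_nonneg_right (hle1 _) (hc0 i)
    linarith
  have h7 : W (Pool.Agent.N746.RK.J (∏ i, P i) t) ≤
      W (JG P e r S t) + W S + σ * D t + ∑ i, c i := by
    rw [hσ]
    linarith
  have h8 : ((n : ℝ) - 1) * D t ≤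
      (1 + ε') * (W (JG P e r S t) + W S + σ * D t + ∑ i, c i) + C₀ :=
    h1.trans (by
      have := mul_le_mul_of_nonneg_left h7 (by linarith : (0 : ℝ) ≤ 1 + ε')
      linarith)
  have h9 : ε' * (n + 1 + σ) = ε := by rw [hε']; field_simp
  have h10 : ε' * W (JG P e r S t) ≤ ε' * ((n + 1) * D t + ∑ i, c i) :=
    mul_le_mul_of_nonneg_left hA1 hε'0.le
  have h11 := le_abs_self C₀
  have h12 : ε' * ((n + 1) * D t) + ε' * (σ * D t) = ε * D t := by
    rw [← h9]; ring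
  nlinarith

end Pool.Agent.N757.SG
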